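import Pool.Agent.Helper76.P13.StC

/-!
# Project P13, module REP: representatives
-/

set_option autoImplicit false

namespace Pool.Agent.Helper2.P13

open Pool.Agent.Helper76.P13

/-- the points of the projective line modulo `13` -/
private def V (i : ℕ) : ℤ × ℤ := if i = 13 then (0, 1) else (1, (i : ℤ))

private def ckE (i j : ℕ) : Bool :=
  LE.any fun m => decide ((m.2.1 * (V i).1 - m.1 * (V i).2) % 13 = 0) &&
    decide ((m.2.2.2 * (V j).1 - m.2.2.1 * (V j).2) % 13 = 0)

private def ckO (j : ℕ) : Bool :=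
  LO.any fun m => decide ((m.2.2.2 * (V j).1 - m.2.2.1 * (V j).2) % 13 = 0)

set_option maxRecDepth 100000 in
private theorem ckE_all : ∀ i < 14, ∀ j < 14, i ≠ j → ckE i j = true := by
  decide +kernel

set_option maxRecDepth 100000 in
private theorem ckO_all : ∀ j < 14, ckO j = true := by
  decide +kernel

private theorem inv_all : ∀ a < 13, ∀ b < 13, a ≠ 0 → ∃ t < 13, (b + 169 - a * t) % 13 = 0 := by
  decide +kernel

private theorem V_or (i : ℕ) : (V i).1 = 1 ∨ (V i).2 = 1 := by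
  unfold V
  split_ifs
  · exact Or.inr rfl
  · exact Or.inl rfl

private theorem idx (a b : ℤ) :
    ∃ i < 14, (13 : ℤ) ∣ b * (V i).1 - a * (V i).2 := by
  by_cases ha : (13 : ℤ) ∣ a
  · refine ⟨13, by norm_num, ?_⟩
    obtain ⟨k, hk⟩ := ha
    refine ⟨-k, ?_⟩
    have : V 13 = (0, 1) := rfl
    rw [this, hk]
    ring
  · have ea := Int.emod_add_mul_ediv a 13
    have eb := Int.emod_add_mul_ediv b 13
    have a1 := Int.emod_nonneg a (show (13 : ℤ) ≠ 0 by norm_num)
    have a2 := Int.emod_lt_of_pos a (show (0 : ℤ) < 13 by norm_num)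
    have b1 := Int.emod_nonneg b (show (13 : ℤ) ≠ 0 by norm_num)
    have b2 := Int.emod_lt_of_pos b (show (0 : ℤ) < 13 by norm_num)
    obtain ⟨a0, ha0⟩ := Int.eq_ofNat_of_zero_le a1
    obtain ⟨b0, hb0⟩ := Int.eq_ofNat_of_zero_le b1
    have hane : a0 ≠ 0 := by
      rintro rfl
      apply ha
      rw [ha0] at ea
      exact ⟨a / 13, by rw [← ea]; simp⟩
    obtain ⟨t, ht, h3⟩ := inv_all a0 (by omega) b0 (by omega) hane
    refine ⟨t, by omega, ?_⟩
    have hV : V t = (1, (t : ℤ)) := by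
      unfold V
      rw [if_neg (by omega)]
    have hle : a0 * t ≤ 144 := by
      calc a0 * t ≤ 12 * 12 := Nat.mul_le_mul (by omega) (by omega)
        _ = 144 := by norm_num
    have h4 : (13 : ℤ) ∣ (b0 : ℤ) - a0 * t := by
      have h5 : 13 ∣ b0 + 169 - a0 * t := Nat.dvd_of_mod_eq_zero h3
      have h6 : ((b0 + 169 - a0 * t : ℕ) : ℤ) = (b0 : ℤ) + 169 - a0 * t := by
        rw [Nat.cast_sub (by omega)]
        push_cast
        ring
      have h7 : (13 : ℤ) ∣ ((b0 + 169 - a0 * t : ℕ) : ℤ) := by exact_mod_cast h5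
      rw [h6] at h7
      obtain ⟨k, hk⟩ := h7
      exact ⟨k - 13, by linarith⟩
    obtain ⟨k, hk⟩ := h4
    rw [hV]
    refine ⟨k + b / 13 - a / 13 * t, ?_⟩
    rw [ha0] at ea
    rw [hb0] at eb
    show b * 1 - a * (t : ℤ) = 13 * (k + b / 13 - a / 13 * t)
    have e : b * 1 - a * (t : ℤ) = (b0 : ℤ) - a0 * t + 13 * (b / 13) - 13 * (a / 13) * t := by
      have e1 : a = (a0 : ℤ) + 13 * (a / 13) := by
        have := ea.symm
        simpa using this
      have e2 : b = (b0 : ℤ) + 13 * (b / 13) := by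
        have := eb.symm
        simpa using this
      calc b * 1 - a * (t : ℤ) = ((b0 : ℤ) + 13 * (b / 13)) - ((a0 : ℤ) + 13 * (a / 13)) * t := by
            rw [← e1, ← e2, mul_one]
        _ = _ := by ring
    rw [e, hk]
    ring

private theorem prp (p q r s x y : ℤ) (hxy : x = 1 ∨ y = 1) (h1 : (13 : ℤ) ∣ q * x - p * y)
    (h2 : (13 : ℤ) ∣ s * x - r * y) : (13 : ℤ) ∣ q * r - p * s := by
  obtain ⟨u, hu⟩ := h1
  obtain ⟨v, hv⟩ := h2
  rcases hxy with rfl | rfl
  · exact ⟨r * u - p * v, by linear_combination r * hu - p * hv⟩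
  · exact ⟨s * u - q * v, by linear_combination s * hu - q * hv⟩

private theorem detE : ∀ m ∈ Pool.Agent.Helper76.P13.LE, m.1 * m.2.2.2 - m.2.1 * m.2.2.1 = 1 := by decide +kernel

private theorem detO : ∀ m ∈ LO, m.1 * m.2.2.2 - m.2.1 * m.2.2.1 = 1 := by decide +kernel

/-- REP. -/
theorem hRep : HRep := by
  refine ⟨⟨detE, ?_⟩, ⟨detO, ?_⟩⟩
  · intro a b c d h
    obtain ⟨i, hi, h1⟩ := idx a b
    obtain ⟨j, hj, h2⟩ := idx c d
    have hij : i ≠ j := by
      rintro rfl
      have h3 := prp a b c d _ _ (V_or i) h1 h2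
      obtain ⟨k, hk⟩ := h3
      have : (13 : ℤ) ∣ 1 := ⟨-k, by linarith⟩
      norm_num at this
    have h3 := ckE_all i hi j hj hij
    unfold ckE at h3
    rw [List.any_eq_true] at h3
    obtain ⟨m, hm, h4⟩ := h3
    rw [Bool.and_eq_true, decide_eq_true_eq, decide_eq_true_eq] at h4
    obtain ⟨u, hu⟩ := prp a b m.1 m.2.1 _ _ (V_or i) h1 (Int.dvd_of_emod_eq_zero h4.1)
    obtain ⟨v, hv⟩ := prp m.2.2.1 m.2.2.2 c d _ _ (V_or j) (Int.dvd_of_emod_eq_zero h4.2) h2
    have hdet := detE m hm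
    refine ⟨m, hm, a * m.2.2.2 - b * m.2.2.1, u, v, d * m.1 - c * m.2.1, ?_, ?_, ?_, ?_, ?_⟩
    · have e : 169 * u * v = (b * m.1 - a * m.2.1) * (m.2.2.2 * c - m.2.2.1 * d) := by
        rw [hu, hv]
        ring
      rw [e]
      linear_combination (m.1 * m.2.2.2 - m.2.1 * m.2.2.1) * h + hdet
    · linear_combination (-a) * hdet + m.2.2.1 * hu
    · linear_combination (-b) * hdet + m.2.2.2 * hu
    · linear_combination (-c) * hdet + m.1 * hv
    · linear_combination (-d) * hdet + m.2.1 * hv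
  · intro a b c d h
    obtain ⟨j, hj, h2⟩ := idx c d
    have h3 := ckO_all j hj
    unfold ckO at h3
    rw [List.any_eq_true] at h3
    obtain ⟨m, hm, h4⟩ := h3
    rw [decide_eq_true_eq] at h4
    obtain ⟨v, hv⟩ := prp m.2.2.1 m.2.2.2 c d _ _ (V_or j) (Int.dvd_of_emod_eq_zero h4) h2
    have hdet := detO m hm
    refine ⟨m, hm, a * m.2.2.2 - b * m.2.2.1, b * m.1 - a * m.2.1, v, d * m.1 - c * m.2.1,
      ?_, ?_, ?_, ?_, ?_⟩
    · have e : 13 * (b * m.1 - a * m.2.1) * v =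
          (b * m.1 - a * m.2.1) * (m.2.2.2 * c - m.2.2.1 * d) := by
        rw [hv]
        ring
      rw [e]
      linear_combination (m.1 * m.2.2.2 - m.2.1 * m.2.2.1) * h + hdet
    · linear_combination (-a) * hdet
    · linear_combination (-b) * hdet
    · linear_combination (-c) * hdet + m.1 * hv
    · linear_combination (-d) * hdet + m.2.1 * hv

end Pool.Agent.Helper2.P13
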