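import Pool.Agent.Helper2.P13.StP

/-! # Project P13 (levels `13^n`): modules Rel, Uni, Sol, Sor (the plane functions of a symbol) -/

set_option autoImplicit false

namespace Pool.Agent.Helper2.P13

open Pool.Agent.Helper14.CV (Homog EqC act Tl StFar StFex)
open Pool.Agent.Helper28.WK (SymP Tw evw Ok)
open Pool.Agent.Helper84.P13 (Pl13 rY13 edge13 tr13 Fn13 S13PlA S13PlU S13Edg S13Trm S13Tre)

/-- The value of the symbol at the point `g u`. -/
private noncomputable def ph {R : Type} {q q' : ℕ} (G : ℤ → ℤ → R) (x : ZMod q) (y : ZMod q')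
    (u1 u2 : ℤ) : R :=
  G (u1 + 13 ^ 0 * (x.val : ℤ) * u2)
    (13 * rY13 0 x y * u1 + (1 + 13 ^ (0 + 1) * (x.val : ℤ) * rY13 0 x y) * u2)

private theorem edge_ph {R : Type} [AddCommGroup R] {q q' : ℕ} (G : ℤ → ℤ → R) (x : ZMod q)
    (y : ZMod q') (u1 u2 v1 v2 : ℤ) :
    edge13 0 u1 u2 v1 v2 G x y = ph G x y u1 u2 - ph G x y v1 v2 := rfl

private theorem ph_neg {R : Type} {q q' : ℕ} {G : ℤ → ℤ → R} (hG : Homog G)
    (x : ZMod q) (y : ZMod q') {u1 u2 : ℤ} (h : u1 ≠ 0 ∨ u2 ≠ 0) :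
    ph G x y (-u1) (-u2) = ph G x y u1 u2 := by
  unfold ph
  have key : u1 + 13 ^ 0 * (x.val : ℤ) * u2 ≠ 0 ∨
      13 * rY13 0 x y * u1 + (1 + 13 ^ (0 + 1) * (x.val : ℤ) * rY13 0 x y) * u2 ≠ 0 := by
    by_contra hh
    rw [not_or, not_not, not_not] at hh
    obtain ⟨h1, h2⟩ := hh
    have h4 : u2 = 0 := by linear_combination h2 - 13 * rY13 0 x y * h1
    have h3 : u1 = 0 := by linear_combination h1 - 13 ^ 0 * (x.val : ℤ) * h4
    rcases h with h | h
    · exact h h3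
    · exact h h4
  rw [← hG (-1) _ _ (by decide) key]
  congr 1 <;> ring



private theorem tr_add {R : Type} [AddCommGroup R] {r s : ℕ} {G : ℤ → ℤ → R}
    (ht : S13Tre) (hS : SymP 13 r (s + 1) G) (a b c d u1 u2 v1 v2 : ℤ)
    (hd : a * d - 13 * b * c = 1) (hu : u1 ≠ 0 ∨ u2 ≠ 0) (hv : v1 ≠ 0 ∨ v2 ≠ 0)
    (x : ZMod (13 ^ r)) (y : ZMod (13 ^ s)) :
    tr13 a b c d (edge13 0 u1 u2 v1 v2 G : ZMod (13 ^ r) → ZMod (13 ^ s) → R) x y =
      ph G x y (a * u1 + b * u2) (13 * c * u1 + d * u2) -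
      ph G x y (a * v1 + b * v2) (13 * c * v1 + d * v2) := by
  rw [← ht R inferInstance r s G hS a b c d u1 u2 v1 v2 hd hu hv x y, edge_ph]

private theorem kP_pf {R : Type} [AddCommGroup R] {r s : ℕ} {G : ℤ → ℤ → R}
    (ht : S13Tre) (hS : SymP 13 r (s + 1) G) :
    kP (fun i => (pf13 G i : ZMod (13 ^ r) → ZMod (13 ^ s) → R)) = edge13 0 1 1 2 3 G := by
  funext x y
  have q0 : tr13 1 1 0 1 (pf13 G 0 : ZMod (13 ^ r) → ZMod (13 ^ s) → R) x y =
      tr13 1 1 0 1 (edge13 0 1 0 0 1 G) x y := rfl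
  show pf13 G 0 x y - tr13 1 1 0 1 (pf13 G 0) x y - pf13 G 1 x y - pf13 G 2 x y - pf13 G 3 x y =
    edge13 0 1 1 2 3 G x y
  rw [q0, tr_add ht hS 1 1 0 1 1 0 0 1 (by norm_num) (by decide) (by decide) x y, edge_ph]
  show (ph G x y 1 0 - ph G x y 0 1) - _ - (ph G x y 1 3 - ph G x y 0 1) -
    (ph G x y 1 2 - ph G x y 1 3) - (ph G x y 2 3 - ph G x y 1 2) = _
  norm_num only
  abel

/-- Module Rel. -/
theorem hRel (ht : S13Tre) : S13Rel := by
  intro R _ r s G hS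
  have hG := hS.1
  refine ⟨fun x y => ?_, fun x y => ?_, fun x y => ?_, fun x y => ?_⟩
  · show edge13 0 1 3 0 1 G x y + tr13 4 (-1) 1 (-3) (edge13 0 1 3 0 1 G) x y +
      tr13 3 (-1) 1 (-4) (edge13 0 1 3 0 1 G) x y = 0
    rw [tr_add ht hS 4 (-1) 1 (-3) 1 3 0 1 (by norm_num) (by decide) (by decide) x y,
      tr_add ht hS 3 (-1) 1 (-4) 1 3 0 1 (by norm_num) (by decide) (by decide) x y, edge_ph]
    norm_num only
    have n1 := ph_neg hG x y (u1 := 1) (u2 := 3) (by decide)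
    have n2 := ph_neg hG x y (u1 := 1) (u2 := 4) (by decide)
    rw [n1, n2]
    abel
  · show edge13 0 1 2 1 3 G x y + tr13 5 (-2) 1 (-5) (edge13 0 1 2 1 3 G) x y = 0
    rw [tr_add ht hS 5 (-2) 1 (-5) 1 2 1 3 (by norm_num) (by decide) (by decide) x y, edge_ph]
    norm_num only
    have n1 := ph_neg hG x y (u1 := 1) (u2 := 2) (by decide)
    rw [n1]
    abel
  · show edge13 0 2 3 1 2 G x y + tr13 8 (-5) 1 (-8) (edge13 0 2 3 1 2 G) x y = 0
    rw [tr_add ht hS 8 (-5) 1 (-8) 2 3 1 2 (by norm_num) (by decide) (by decide) x y, edge_ph]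
    norm_num only
    have n1 := ph_neg hG x y (u1 := 2) (u2 := 3) (by decide)
    rw [n1]
    abel
  · rw [kP_pf ht hS, tr_add ht hS 10 (-7) 1 (-9) 1 1 2 3 (by norm_num) (by decide) (by decide) x y,
      tr_add ht hS 9 (-7) 1 (-10) 1 1 2 3 (by norm_num) (by decide) (by decide) x y, edge_ph]
    norm_num only
    have n1 := ph_neg hG x y (u1 := 1) (u2 := 1) (by decide)
    have n2 := ph_neg hG x y (u1 := 3) (u2 := 4) (by decide)
    rw [n1, n2]
    abel

/-! ### the classes -/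

/-- The classes of `c/d` modulo `13`. -/
private inductive K
  | ki
  | k0
  | k1
  | k2
  | k3
  | k4
  | k5
  | k6
  | k7
  | k8
  | k9
  | k10
  | k11
  | k12

private def p1 : K → ℤ
  | .ki => 0
  | .k0 => 1
  | .k1 => 1
  | .k2 => 1
  | .k3 => 1
  | .k4 => 0
  | .k5 => 1
  | .k6 => 0
  | .k7 => 1
  | .k8 => 2
  | .k9 => 1
  | .k10 => 2
  | .k11 => 1
  | .k12 => 0

private def p2 : K → ℤ
  | .ki => -1
  | .k0 => 0
  | .k1 => 0
  | .k2 => 0
  | .k3 => 0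
  | .k4 => -1
  | .k5 => 1
  | .k6 => -1
  | .k7 => 1
  | .k8 => 1
  | .k9 => 2
  | .k10 => -1
  | .k11 => -1
  | .k12 => -1

private def p3 : K → ℤ
  | .ki => 1
  | .k0 => 0
  | .k1 => 1
  | .k2 => 2
  | .k3 => 3
  | .k4 => 1
  | .k5 => 2
  | .k6 => 1
  | .k7 => 1
  | .k8 => 3
  | .k9 => 1
  | .k10 => 3
  | .k11 => 2
  | .k12 => 1

private def p4 : K → ℤ
  | .ki => 0
  | .k0 => 1
  | .k1 => 1
  | .k2 => 1
  | .k3 => 1
  | .k4 => -3
  | .k5 => 3
  | .k6 => -2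
  | .k7 => 2
  | .k8 => 2
  | .k9 => 3
  | .k10 => -1
  | .k11 => -1
  | .k12 => -1

private theorem e0 (t : K) : p1 t * p4 t - p2 t * p3 t = 1 := by
  cases t <;> rfl

private theorem cls1 : ∀ c d : ZMod 13, c * 0 - d * 1 = 0 ∨
    c * 1 - d * 0 = 0 ∨
    c * 1 - d * 1 = 0 ∨
    c * 1 - d * 2 = 0 ∨
    c * 1 - d * 3 = 0 ∨
    c * 10 - d * 1 = 0 ∨
    c * 3 - d * 2 = 0 ∨
    c * 11 - d * 1 = 0 ∨
    c * 2 - d * 1 = 0 ∨
    c * 2 - d * 3 = 0 ∨
    c * 3 - d * 1 = 0 ∨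
    c * 12 - d * 3 = 0 ∨
    c * 12 - d * 2 = 0 ∨
    c * 12 - d * 1 = 0 := by
  decide

private theorem e13d : ∀ z : ℤ, ((z : ℤ) : ZMod 13) = 0 → (13 : ℤ) ∣ z := fun z hz =>
  (ZMod.intCast_zmod_eq_zero_iff_dvd z 13).1 hz

private theorem ex (c d : ℤ) : ∃ t : K, (13 : ℤ) ∣ c * p4 t - d * p3 t := by
  rcases cls1 c d with q | q | q | q | q | q | q | q | q | q | q | q | q | q
  · have := e13d (c * 0 - d * 1) (by push_cast; exact q)
    exact ⟨.ki, by simp only [p4, p3]; omega⟩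
  · have := e13d (c * 1 - d * 0) (by push_cast; exact q)
    exact ⟨.k0, by simp only [p4, p3]; omega⟩
  · have := e13d (c * 1 - d * 1) (by push_cast; exact q)
    exact ⟨.k1, by simp only [p4, p3]; omega⟩
  · have := e13d (c * 1 - d * 2) (by push_cast; exact q)
    exact ⟨.k2, by simp only [p4, p3]; omega⟩
  · have := e13d (c * 1 - d * 3) (by push_cast; exact q)
    exact ⟨.k3, by simp only [p4, p3]; omega⟩
  · have := e13d (c * 10 - d * 1) (by push_cast; exact q)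
    exact ⟨.k4, by simp only [p4, p3]; omega⟩
  · have := e13d (c * 3 - d * 2) (by push_cast; exact q)
    exact ⟨.k5, by simp only [p4, p3]; omega⟩
  · have := e13d (c * 11 - d * 1) (by push_cast; exact q)
    exact ⟨.k6, by simp only [p4, p3]; omega⟩
  · have := e13d (c * 2 - d * 1) (by push_cast; exact q)
    exact ⟨.k7, by simp only [p4, p3]; omega⟩
  · have := e13d (c * 2 - d * 3) (by push_cast; exact q)
    exact ⟨.k8, by simp only [p4, p3]; omega⟩
  · have := e13d (c * 3 - d * 1) (by push_cast; exact q)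
    exact ⟨.k9, by simp only [p4, p3]; omega⟩
  · have := e13d (c * 12 - d * 3) (by push_cast; exact q)
    exact ⟨.k10, by simp only [p4, p3]; omega⟩
  · have := e13d (c * 12 - d * 2) (by push_cast; exact q)
    exact ⟨.k11, by simp only [p4, p3]; omega⟩
  · have := e13d (c * 12 - d * 1) (by push_cast; exact q)
    exact ⟨.k12, by simp only [p4, p3]; omega⟩

private theorem cop {r : ℕ} {a : ℤ} (h : ¬ (13 : ℤ) ∣ a) : IsUnit ((a : ℤ) : ZMod (13 ^ r)) := by
  have h1 : IsCoprime a 13 := by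
    have := (Int.prime_ofNat_iff.2 (by norm_num : Nat.Prime 13)).coprime_iff_not_dvd.2 h
    exact this.symm
  have h2 : IsCoprime a ((13 ^ r : ℕ) : ℤ) := by
    push_cast
    exact h1.pow_right
  exact (ZMod.coe_int_isUnit_iff_isCoprime a (13 ^ r)).2 h2.symm

private theorem pl_mk (r s : ℕ) {a b c d : ℤ} (h : a * d - 13 * (b * c) = 1) :
    ∃ (x : ZMod (13 ^ r)) (y : ZMod (13 ^ s)), Pl13 0 a b c d x y := by
  have h1 : ¬ (13 : ℤ) ∣ a := by
    rintro ⟨k, rfl⟩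
    have : 13 * k * d = 13 * (k * d) := by ring
    omega
  have h2 : ¬ (13 : ℤ) ∣ d := by
    rintro ⟨k, rfl⟩
    have : a * (13 * k) = 13 * (a * k) := by ring
    omega
  refine ⟨(b : ZMod (13 ^ r)) * (a : ZMod (13 ^ r))⁻¹, (c : ZMod (13 ^ s)) * (d : ZMod (13 ^ s))⁻¹,
    by linear_combination h, ?_, ?_⟩
  · rw [mul_assoc, ZMod.inv_mul_of_unit _ (cop h1), mul_one]
  · rw [mul_assoc, ZMod.inv_mul_of_unit _ (cop h2), mul_one]


/-- Module Uni. -/
theorem hUni (he : S13Edg) (ht : S13Tre) (hfar : Pool.Agent.Helper14.CV.StFar) : S13Uni := by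
  intro R _ r s G hS hF
  have hG := hS.1
  refine hfar R inferInstance G hG ?_
  intro a b c d h
  have f0 : ∀ (x : ZMod (13 ^ r)) (y : ZMod (13 ^ s)), ph G x y 1 0 = ph G x y 0 1 := fun x y => by
    have := congrFun (congrFun (hF 0) x) y
    exact sub_eq_zero.1 this
  have f1 : ∀ (x : ZMod (13 ^ r)) (y : ZMod (13 ^ s)), ph G x y 1 3 = ph G x y 0 1 := fun x y => by
    have := congrFun (congrFun (hF 1) x) y
    exact sub_eq_zero.1 this
  have f2 : ∀ (x : ZMod (13 ^ r)) (y : ZMod (13 ^ s)), ph G x y 1 2 = ph G x y 0 1 := fun x y => by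
    have := congrFun (congrFun (hF 2) x) y
    rw [← f1 x y]
    exact sub_eq_zero.1 this
  have f4 : ∀ (x : ZMod (13 ^ r)) (y : ZMod (13 ^ s)), ph G x y 2 3 = ph G x y 0 1 := fun x y => by
    have := congrFun (congrFun (hF 3) x) y
    rw [← f2 x y]
    exact sub_eq_zero.1 this
  have f3 : ∀ (x : ZMod (13 ^ r)) (y : ZMod (13 ^ s)), ph G x y 1 1 = ph G x y 0 1 := fun x y => by
    have t0 := tr_add ht hS 1 1 0 1 1 0 0 1 (by norm_num) (by decide) (by decide) x y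
    have t1 : tr13 1 1 0 1 (edge13 0 1 0 0 1 G : ZMod (13 ^ r) → ZMod (13 ^ s) → R) x y = 0 := by
      have := congrFun (congrFun (hF 0) ((((1 : ℤ) : ZMod (13 ^ r)) + (1 : ℤ) * x) *
        (((1 : ℤ) : ZMod (13 ^ r)) + 13 * (0 : ℤ) * x)⁻¹))
        ((((0 : ℤ) : ZMod (13 ^ s)) + (1 : ℤ) * y) * (((1 : ℤ) : ZMod (13 ^ s)) + 13 * (1 : ℤ) * y)⁻¹)
      exact this
    rw [t1] at t0
    norm_num only at t0
    rw [f0] at t0
    exact (sub_eq_zero.1 t0.symm).symm
  obtain ⟨t, c', hc⟩ := ex c d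
  obtain ⟨x, y, hp⟩ := pl_mk r s (a := a * p4 t - b * p3 t) (b := -a * p2 t + b * p1 t) (c := c')
    (d := -c * p2 t + d * p1 t) (by
      linear_combination (a * d - b * c) * e0 t + (-a * p2 t + b * p1 t) * hc + h)
  have h1 : p1 t ≠ 0 ∨ p3 t ≠ 0 := by cases t <;> decide
  have h2 : p2 t ≠ 0 ∨ p4 t ≠ 0 := by cases t <;> decide
  have hed := he R inferInstance 0 r s G (by rw [Nat.add_zero]; exact hS) (p1 t) (p3 t) (p2 t) (p4 t) h1 h2 x y
    _ _ _ _ hp
  have e1 : (a * p4 t - b * p3 t) * p1 t + 13 ^ 0 * (-a * p2 t + b * p1 t) * p3 t = a := by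
    linear_combination a * e0 t
  have e2 : 13 * c' * p1 t + (-c * p2 t + d * p1 t) * p3 t = c := by
    linear_combination c * e0 t - p1 t * hc
  have e3 : (a * p4 t - b * p3 t) * p2 t + 13 ^ 0 * (-a * p2 t + b * p1 t) * p4 t = b := by
    linear_combination b * e0 t
  have e4 : 13 * c' * p2 t + (-c * p2 t + d * p1 t) * p4 t = d := by
    linear_combination d * e0 t - p2 t * hc
  rw [e1, e2, e3, e4, edge_ph] at hed
  have hz : ph G x y (p1 t) (p3 t) = ph G x y (p2 t) (p4 t) := by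
    cases t <;> simp only [p1, p2, p3, p4]
    · have n : ph G x y (-1) 0 = ph G x y 1 0 := ph_neg hG x y (u1 := 1) (u2 := 0) (by decide)
      rw [f0] at n
      exact n.symm
    · rw [f0]
    · rw [f3]
    · rw [f2]
    · rw [f1]
    · have n : ph G x y (-1) (-3) = ph G x y 1 3 := ph_neg hG x y (u1 := 1) (u2 := 3) (by decide)
      rw [f1] at n
      exact n.symm
    · rw [f2, f1]
    · have n : ph G x y (-1) (-2) = ph G x y 1 2 := ph_neg hG x y (u1 := 1) (u2 := 2) (by decide)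
      rw [f2] at n
      exact n.symm
    · rw [f3, f2]
    · rw [f4, f2]
    · rw [f3, f4]
    · have n : ph G x y (-1) (-1) = ph G x y 1 1 := ph_neg hG x y (u1 := 1) (u2 := 1) (by decide)
      rw [f3] at n
      rw [f4]
      exact n.symm
    · have n : ph G x y (-1) (-1) = ph G x y 1 1 := ph_neg hG x y (u1 := 1) (u2 := 1) (by decide)
      rw [f3] at n
      rw [f2]
      exact n.symm
    · have n : ph G x y (-1) (-1) = ph G x y 1 1 := ph_neg hG x y (u1 := 1) (u2 := 1) (by decide)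
      rw [f3] at n
      exact n.symm
  rw [hz, sub_self] at hed
  exact (sub_eq_zero.1 hed.symm)

/-! ### Sol and Sor -/

private theorem comp {R : Type} {r s : ℕ} (hm : S13Trm)
    (F : ZMod (13 ^ r) → ZMod (13 ^ s) → R) (a b c d a' b' c' d' A B C D : ℤ)
    (h1 : ¬ 13 ∣ a) (h2 : ¬ 13 ∣ d) (h3 : ¬ 13 ∣ a') (h4 : ¬ 13 ∣ d')
    (e1 : a * a' + 13 * b * c' = A) (e2 : a * b' + b * d' = B) (e3 : c * a' + d * c' = C)
    (e4 : 13 * c * b' + d * d' = D) :
    tr13 a b c d (tr13 a' b' c' d' F) = tr13 A B C D F := by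
  rw [(hm R r s F).1 a b c d a' b' c' d' h1 h2 h3 h4, e1, e2, e3, e4]

private theorem ngm {R : Type} {r s : ℕ} (hm : S13Trm)
    (F : ZMod (13 ^ r) → ZMod (13 ^ s) → R) (a b c d A B C D : ℤ)
    (h1 : ¬ 13 ∣ a) (h2 : ¬ 13 ∣ d) (e1 : A = -a) (e2 : B = -b) (e3 : C = -c) (e4 : D = -d) :
    tr13 A B C D F = tr13 a b c d F := by
  rw [e1, e2, e3, e4, ← (hm R r s F).2.2 (-1) a b c d (by decide) h1 h2]
  simp only [neg_mul, one_mul]

/-- Composition of a translation with a function of the form `a - a∘g` etc. -/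
private theorem tr_sub {R : Type} [AddCommGroup R] {r s : ℕ} (a b c d : ℤ)
    (F G : ZMod (13 ^ r) → ZMod (13 ^ s) → R) (x : ZMod (13 ^ r)) (y : ZMod (13 ^ s)) :
    tr13 a b c d (fun x y => F x y - G x y) x y = tr13 a b c d F x y - tr13 a b c d G x y := rfl

private theorem r1a {R : Type} {r s : ℕ} (hm : S13Trm) (F : ZMod (13 ^ r) → ZMod (13 ^ s) → R) :
    tr13 4 (-1) 1 (-3) (tr13 4 (-1) 1 (-3) F) = tr13 3 (-1) 1 (-4) F :=
  comp hm F 4 (-1) 1 (-3) 4 (-1) 1 (-3) 3 (-1) 1 (-4) (by decide) (by decide) (by decide)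
    (by decide) (by norm_num) (by norm_num) (by norm_num) (by norm_num)

private theorem r1b {R : Type} {r s : ℕ} (hm : S13Trm) (F : ZMod (13 ^ r) → ZMod (13 ^ s) → R) :
    tr13 3 (-1) 1 (-4) (tr13 4 (-1) 1 (-3) F) = F := by
  rw [comp hm F 3 (-1) 1 (-4) 4 (-1) 1 (-3) (-1) 0 0 (-1) (by decide) (by decide) (by decide)
    (by decide) (by norm_num) (by norm_num) (by norm_num) (by norm_num),
    ngm hm F 1 0 0 1 (-1) 0 0 (-1) (by decide) (by decide) (by norm_num) (by norm_num) (by norm_num)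
      (by norm_num)]
  exact (hm R r s F).2.1

private theorem r2a {R : Type} {r s : ℕ} (hm : S13Trm) (F : ZMod (13 ^ r) → ZMod (13 ^ s) → R) :
    tr13 10 (-7) 1 (-9) (tr13 10 (-7) 1 (-9) F) = tr13 9 (-7) 1 (-10) F :=
  comp hm F 10 (-7) 1 (-9) 10 (-7) 1 (-9) 9 (-7) 1 (-10) (by decide) (by decide) (by decide)
    (by decide) (by norm_num) (by norm_num) (by norm_num) (by norm_num)

private theorem r2b {R : Type} {r s : ℕ} (hm : S13Trm) (F : ZMod (13 ^ r) → ZMod (13 ^ s) → R) :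
    tr13 9 (-7) 1 (-10) (tr13 10 (-7) 1 (-9) F) = F := by
  rw [comp hm F 9 (-7) 1 (-10) 10 (-7) 1 (-9) (-1) 0 0 (-1) (by decide) (by decide) (by decide)
    (by decide) (by norm_num) (by norm_num) (by norm_num) (by norm_num),
    ngm hm F 1 0 0 1 (-1) 0 0 (-1) (by decide) (by decide) (by norm_num) (by norm_num) (by norm_num)
      (by norm_num)]
  exact (hm R r s F).2.1

private theorem bb {R : Type} {r s : ℕ} (hm : S13Trm) (F : ZMod (13 ^ r) → ZMod (13 ^ s) → R) :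
    tr13 5 (-2) 1 (-5) (tr13 5 (-2) 1 (-5) F) = F := by
  rw [comp hm F 5 (-2) 1 (-5) 5 (-2) 1 (-5) (-1) 0 0 (-1) (by decide) (by decide) (by decide)
    (by decide) (by norm_num) (by norm_num) (by norm_num) (by norm_num),
    ngm hm F 1 0 0 1 (-1) 0 0 (-1) (by decide) (by decide) (by norm_num) (by norm_num) (by norm_num)
      (by norm_num)]
  exact (hm R r s F).2.1

private theorem aa {R : Type} {r s : ℕ} (hm : S13Trm) (F : ZMod (13 ^ r) → ZMod (13 ^ s) → R) :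
    tr13 8 (-5) 1 (-8) (tr13 8 (-5) 1 (-8) F) = F := by
  rw [comp hm F 8 (-5) 1 (-8) 8 (-5) 1 (-8) (-1) 0 0 (-1) (by decide) (by decide) (by decide)
    (by decide) (by norm_num) (by norm_num) (by norm_num) (by norm_num),
    ngm hm F 1 0 0 1 (-1) 0 0 (-1) (by decide) (by decide) (by norm_num) (by norm_num) (by norm_num)
      (by norm_num)]
  exact (hm R r s F).2.1

/-- Module Sol. -/
theorem hSol (hm : S13Trm) : S13Sol := by
  intro r s F hF
  obtain ⟨h1, h2, h3, h4⟩ := hF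
  have h13 : (13 : ZMod 13) = 0 := by decide
  refine ⟨fun x y => 5 * F 1 x y + 9 * tr13 4 (-1) 1 (-3) (F 1) x y, fun x y => 7 * F 2 x y,
    fun x y => 7 * F 3 x y, fun x y => 5 * kP F x y + 9 * tr13 10 (-7) 1 (-9) (kP F) x y,
    fun x y => ?_, fun x y => ?_, fun x y => ?_, fun x y => ?_⟩
  · have e : tr13 4 (-1) 1 (-3) (fun x y => 5 * F 1 x y + 9 * tr13 4 (-1) 1 (-3) (F 1) x y) x y =
        5 * tr13 4 (-1) 1 (-3) (F 1) x y +
          9 * tr13 4 (-1) 1 (-3) (tr13 4 (-1) 1 (-3) (F 1)) x y := rfl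
    rw [e, r1a hm]
    linear_combination (-4 : ZMod 13) * h1 x y + tr13 3 (-1) 1 (-4) (F 1) x y * h13
  · have e : tr13 5 (-2) 1 (-5) (fun x y => 7 * F 2 x y) x y =
        7 * tr13 5 (-2) 1 (-5) (F 2) x y := rfl
    rw [e]
    linear_combination (7 : ZMod 13) * h2 x y - F 2 x y * h13
  · have e : tr13 8 (-5) 1 (-8) (fun x y => 7 * F 3 x y) x y =
        7 * tr13 8 (-5) 1 (-8) (F 3) x y := rfl
    rw [e]
    linear_combination (7 : ZMod 13) * h3 x y - F 3 x y * h13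
  · have e : tr13 10 (-7) 1 (-9) (fun x y => 5 * kP F x y + 9 * tr13 10 (-7) 1 (-9) (kP F) x y) x y =
        5 * tr13 10 (-7) 1 (-9) (kP F) x y +
          9 * tr13 10 (-7) 1 (-9) (tr13 10 (-7) 1 (-9) (kP F)) x y := rfl
    rw [e, r2a hm]
    linear_combination (-4 : ZMod 13) * h4 x y + tr13 9 (-7) 1 (-10) (kP F) x y * h13

/-- Module Sor. -/
theorem hSor (hm : S13Trm) : S13Sor := by
  intro R _ r s f a b c e h
  have hk : kP (![f, fun x y => a x y - tr13 4 (-1) 1 (-3) a x y,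
      fun x y => b x y - tr13 5 (-2) 1 (-5) b x y,
      fun x y => c x y - tr13 8 (-5) 1 (-8) c x y] : Fin 4 → ZMod (13 ^ r) → ZMod (13 ^ s) → R) =
      fun x y => e x y - tr13 10 (-7) 1 (-9) e x y := by
    funext x y
    have := sub_eq_zero.1 (h x y)
    exact this
  refine ⟨fun x y => ?_, fun x y => ?_, fun x y => ?_, fun x y => ?_⟩
  · show (a x y - tr13 4 (-1) 1 (-3) a x y) +
      tr13 4 (-1) 1 (-3) (fun x y => a x y - tr13 4 (-1) 1 (-3) a x y) x y +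
      tr13 3 (-1) 1 (-4) (fun x y => a x y - tr13 4 (-1) 1 (-3) a x y) x y = 0
    rw [tr_sub, tr_sub, r1a hm, r1b hm]
    abel
  · show (b x y - tr13 5 (-2) 1 (-5) b x y) +
      tr13 5 (-2) 1 (-5) (fun x y => b x y - tr13 5 (-2) 1 (-5) b x y) x y = 0
    rw [tr_sub, bb hm]
    abel
  · show (c x y - tr13 8 (-5) 1 (-8) c x y) +
      tr13 8 (-5) 1 (-8) (fun x y => c x y - tr13 8 (-5) 1 (-8) c x y) x y = 0
    rw [tr_sub, aa hm]
    abel
  · rw [hk]
    show (e x y - tr13 10 (-7) 1 (-9) e x y) +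
      tr13 10 (-7) 1 (-9) (fun x y => e x y - tr13 10 (-7) 1 (-9) e x y) x y +
      tr13 9 (-7) 1 (-10) (fun x y => e x y - tr13 10 (-7) 1 (-9) e x y) x y = 0
    rw [tr_sub, tr_sub, r2a hm, r2b hm]
    abel

end Pool.Agent.Helper2.P13
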