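import Pool.Agent.Helper84.P13.StD1

/-!
# Project P13 (levels `13^n`): the plane functions of a symbol

The group of the matrices `(a b; 13c d)` of determinant one modulo the centre is the free product of an infinite cyclic group, two groups of order two and two groups of order three. Polygon with vertices `∞, 0, 1/3, 1/2, 2/3, 1`; generators `T = (1 1; 0 1)`,
`ρ1 = (4 -1; 13 -3)` (order three, `0 → 1/3 → 1/4 → 0`), `β = (5 -2; 13 -5)` (order two, exchanges `1/3`, `1/2`), `α = (8 -5; 13 -8)` (order two, exchanges `1/2`, `2/3`), `ρ2 = (10 -7; 13 -9)` (order three, `2/3 → 1 → 3/4 → 2/3`).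
The FOUR plane functions are the paths `F0 = {0 → ∞}`, `F1 = {0 → 1/3}`, `F2 = {1/3 → 1/2}`, `F3 = {1/2 → 2/3}`; `k = F0 - F0∘T - F1 - F2 - F3` is the path `{2/3 → 1}`; four relations.
-/

set_option autoImplicit false

namespace Pool.Agent.Helper2.P13

open Pool.Agent.Helper14.CV (Homog EqC act Tl StFar StFex)
open Pool.Agent.Helper28.WK (SymP Tw evw Ok)
open Pool.Agent.Helper84.P13 (Pl13 rY13 edge13 tr13 Fn13 S13PlA S13PlU S13Edg S13Trm S13Tre)

/-- The end point `u1P / u2P` of the path `i`. -/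
def u1P : Fin 4 → ℤ := ![1, 1, 1, 2]

/-- See `u1P`. -/
def u2P : Fin 4 → ℤ := ![0, 3, 2, 3]

/-- The starting point `v1P / v2P` of the path `i`. -/
def v1P : Fin 4 → ℤ := ![0, 0, 1, 1]

/-- See `v1P`. -/
def v2P : Fin 4 → ℤ := ![1, 1, 3, 2]

/-- The four plane functions of a symbol. -/
noncomputable def pf13 {R : Type} [AddCommGroup R] {q q' : ℕ} (G : ℤ → ℤ → R) (i : Fin 4) :
    ZMod q → ZMod q' → R := fun x y => edge13 0 (u1P i) (u2P i) (v1P i) (v2P i) G x y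

/-- `k = F0 - F0∘T - F1 - F2 - F3` (the path from `2/3` to `1`). -/
def kP {R : Type} [AddCommGroup R] {q q' : ℕ} (F : Fin 4 → ZMod q → ZMod q' → R) :
    ZMod q → ZMod q' → R :=
  fun x y => F 0 x y - tr13 1 1 0 1 (F 0) x y - F 1 x y - F 2 x y - F 3 x y

/-- The relations between the four functions: `F1 + F1∘ρ1 + F1∘ρ1² = 0`, `F2 + F2∘β = 0`, `F3 + F3∘α = 0`, `k + k∘ρ2 + k∘ρ2² = 0`. -/
def Rel13 {R : Type} [AddCommGroup R] {q q' : ℕ} (F : Fin 4 → ZMod q → ZMod q' → R) : Prop :=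
  (∀ x y, F 1 x y + tr13 4 (-1) 1 (-3) (F 1) x y + tr13 3 (-1) 1 (-4) (F 1) x y = 0) ∧
  (∀ x y, F 2 x y + tr13 5 (-2) 1 (-5) (F 2) x y = 0) ∧
  (∀ x y, F 3 x y + tr13 8 (-5) 1 (-8) (F 3) x y = 0) ∧
  ∀ x y, kP F x y + tr13 10 (-7) 1 (-9) (kP F) x y + tr13 9 (-7) 1 (-10) (kP F) x y = 0

/-- REL (from TRE). The plane functions of a symbol satisfy the relations. -/
def S13Rel : Prop := ∀ (R : Type) (_ : AddCommGroup R) (r s : ℕ) (G : ℤ → ℤ → R),
  SymP 13 r (s + 1) G → Rel13 (fun i => (pf13 G i : ZMod (13 ^ r) → ZMod (13 ^ s) → R))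

/-- EX (from TRM, PLA, EDG, FEX, FAR of CV). Every solution of the relations comes from a symbol. -/
def S13Ex : Prop := ∀ (R : Type) (_ : AddCommGroup R) (r s : ℕ)
  (F : Fin 4 → ZMod (13 ^ r) → ZMod (13 ^ s) → R), Rel13 F →
  ∃ G : ℤ → ℤ → R, SymP 13 r (s + 1) G ∧ ∀ i, pf13 G i = F i

/-- UNI (from EDG, PLA, FAR). A symbol with `F0 = F1 = F2 = F3 = 0` is constant. -/
def S13Uni : Prop := ∀ (R : Type) (_ : AddCommGroup R) (r s : ℕ) (G : ℤ → ℤ → R),
  SymP 13 r (s + 1) G → (∀ i, (pf13 G i : ZMod (13 ^ r) → ZMod (13 ^ s) → R) = 0) → EqC G 0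

/-- SOL (from TRM). Modulo 13 every solution is `F1 = a - a∘ρ1`, `F2 = b - b∘β`, `F3 = c - c∘α`, `k = e - e∘ρ2` (`a = 5 F1 + 9 F1∘ρ1`, `b = 7 F2`, `c = 7 F3`, `e = 5 k + 9 k∘ρ2`). -/
def S13Sol : Prop := ∀ (r s : ℕ) (F : Fin 4 → Fn13 (13 ^ r) (13 ^ s)), Rel13 F →
  ∃ a b c e : Fn13 (13 ^ r) (13 ^ s),
    (∀ x y, F 1 x y = a x y - tr13 4 (-1) 1 (-3) a x y) ∧
    (∀ x y, F 2 x y = b x y - tr13 5 (-2) 1 (-5) b x y) ∧
    (∀ x y, F 3 x y = c x y - tr13 8 (-5) 1 (-8) c x y) ∧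
    ∀ x y, kP F x y = e x y - tr13 10 (-7) 1 (-9) e x y

/-- SOR (from TRM). Conversely: a solution of `f - f∘T = (a - a∘ρ1) + (b - b∘β) + (c - c∘α) + (e - e∘ρ2)` gives a solution of the relations. -/
def S13Sor : Prop := ∀ (R : Type) (_ : AddCommGroup R) (r s : ℕ)
  (f a b c e : ZMod (13 ^ r) → ZMod (13 ^ s) → R),
  (∀ x y, f x y - tr13 1 1 0 1 f x y - (a x y - tr13 4 (-1) 1 (-3) a x y) -
    (b x y - tr13 5 (-2) 1 (-5) b x y) - (c x y - tr13 8 (-5) 1 (-8) c x y) -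
    (e x y - tr13 10 (-7) 1 (-9) e x y) = 0) →
  Rel13 (![f, fun x y => a x y - tr13 4 (-1) 1 (-3) a x y,
    fun x y => b x y - tr13 5 (-2) 1 (-5) b x y,
    fun x y => c x y - tr13 8 (-5) 1 (-8) c x y] : Fin 4 → ZMod (13 ^ r) → ZMod (13 ^ s) → R)

/-- LIFP (from TRM, SOL, SOR). Lifting solutions of the relations to integers. With `a, b, c, e` of SOL take any integral lifts of `F0, a, b, c, e`; the defect `E = (F0 - F0∘T) - (a - a∘ρ1) - (b - b∘β) - (c - c∘α) - (e - e∘ρ2)` of the lifts is divisible by 13 and has total sum zero over the plane;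
`E/13` has total sum zero, and every integral function with sum zero is of the form of the left side, because modulo such functions `δ_p ≡ δ_(pg)` for `g = T, ρ1, β, α, ρ2`, so also for `B' = (1 0; -13 1) = T⁻¹ ρ2 α β ρ1` (exactly), and the plane is connected under `T` and `B'`. Subtract `13` times; SOR.
Model: `Pool/Agent/Helper84/P11/M_Lifp.lean`. -/
def S13Lifp : Prop := ∀ (r s : ℕ) (f : Fin 4 → Fn13 (13 ^ r) (13 ^ s)), Rel13 f →
  ∃ F : Fin 4 → ZMod (13 ^ r) → ZMod (13 ^ s) → ℤ, Rel13 F ∧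
    ∀ i x y, ((F i x y : ℤ) : ZMod 13) = f i x y

end Pool.Agent.Helper2.P13
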